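import Pool.Agent.Helper98.RD.Final2

/-!
# Anick's conjecture: reduction to an explicit sequence of coformal spaces

Definitions used in the statement: `Pool.Agent.Helper2.GCA.Lam` (the free graded-commutative algebra
`Lam deg`, generators `gen`, homogeneous components `hom`, minimal Sullivan algebras),
`Pool.Agent.Helper2.AN.Stmt2` (relative Sullivan algebras `IsExt`, finite-dimensional cohomology
`CohFin`) and `Pool.Agent.Helper98.RD.Stat` (`GoodAt`, the universal coformal algebras `udeg`, `ux`,
`IsUniv`).
-/

set_option autoImplicit false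

open Anick2

/-- Let `U N = C^*(gl(V_N)_{>0})`, `V_N = ⨁_{0 ≤ i ≤ N} ℚ^N[i]` (coformal minimal Sullivan algebras with explicit
quadratic differential). For every minimal Sullivan algebra `(ΛW, d)` with finitely many generators, all of
degree `≥ 2`, there are an `N` and a surjective morphism `U N → (ΛW, d)` such that for every `n`: if `U N` has an
elliptic extension by generators of degree `≥ n` (minimal as a Sullivan algebra), then so has `(ΛW, d)`. -/
theorem Pool.Agent.Results.MP_5f0082_gt.CoformalReduction.result :
    ∃ U : ∀ N, MinimalSullivan (udeg N), (∀ N, IsUniv N (U N)) ∧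
      ∀ (ι : Type) [Finite ι] (deg : ι → ℕ) (S : MinimalSullivan deg), ∃ N,
        (∃ J : Lam (udeg N) →ₐ[ℚ] Lam deg, (∀ n, ∀ a ∈ hom (udeg N) n, J a ∈ hom deg n) ∧
          (∀ a, S.d (J a) = J ((U N).d a)) ∧ Function.Surjective J) ∧
        ∀ n, (U N).GoodAt n → S.GoodAt n :=
  reduction2
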