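import Pool.Agent.Helper2.GCA.Main

/-!
# The sufficient statement of Félix, Jessup and Murillo for Anick's conjecture is false

All definitions used in the statement are in `Pool.Agent.Helper2.GCA.Lam` (the free
graded-commutative algebra `Lam deg`, its generators `gen`, monomials `mon`, homogeneous components
`hom`, minimal Sullivan algebras, even cohomology, nilpotent classes).
-/

set_option autoImplicit false

open Anick2

/-- There is a minimal Sullivan algebra `(ΛV, d)` with `V = V^{≥ 2}` of finite type, with
`dim V^even = 4` and `H^even(ΛV, d)` finite-dimensional, and an element `v_i` of a homogeneous basis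
of `V` whose class is not nilpotent in `H(ΛV^{≥ deg v_i}, d̄)`. -/
theorem Pool.Agent.Results.MP_5f0082_gt.FJMStatementFails.result :
    ∃ (ι : Type) (deg : ι → ℕ) (S : MinimalSullivan deg),
      (∀ n, {i | deg i = n}.Finite) ∧ {i | Even (deg i)}.ncard = 4 ∧
      S.EvenFinite ∧ ∃ i, ¬ S.IsNilpotentClass i :=
  fjm_fails
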