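import Pool.Agent.Helper2.AN.Final2

/-!
# Elliptic extensions by odd generators (Anick's conjecture for a class of Postnikov pieces)

Definitions used in the statement: `Pool.Agent.Helper2.GCA.Lam` (the free graded-commutative algebra
`Lam deg`, generators `gen`, homogeneous components `hom`, minimal Sullivan algebras) and
`Pool.Agent.Helper2.AN.Stmt2` (relative Sullivan algebras `IsExt`, finite-dimensional cohomology
`CohFin`, the class `IsTame`).
-/

set_option autoImplicit false

open Anick2

/-- Let `(ΛW, d)` be a minimal Sullivan algebra with `dim W` finite and `W = W^{≥ 2}`. If `dim W^even ≤ 2` or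
`(ΛW, d)` is tame, then for every `n` there is a relative Sullivan algebra `(ΛW ⊗ ΛV, d)`, minimal as a Sullivan
algebra, with `V = V^odd = V^{≥ n}` finite-dimensional and with finite-dimensional cohomology: an elliptic algebra. -/
theorem Pool.Agent.Results.MP_5f0082_gt.OddEllipticExtensions.result {ι : Type} [Finite ι]
    {deg : ι → ℕ} (S : MinimalSullivan deg)
    (h : {i | Even (deg i)}.ncard ≤ 2 ∨ IsTame (hom deg) (lamPlus deg) deg S.d) (n : ℕ) :
    ∃ (m : ℕ) (deg' : Fin m → ℕ) (S' : MinimalSullivan (Sum.elim deg deg')),
      (∀ j, n ≤ deg' j ∧ Odd (deg' j)) ∧ S.IsExt S' ∧ CohFin S'.d :=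
  anick' S h n
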