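import Pool.Agent.Helper48.G2.OneAll
import Pool.Agent.Helper48.G2.Wt

/-!
# Anick's conjecture for spaces with even homotopy in degrees at most seven, and for locally pure extensions

Definitions used in the statement: `Pool.Agent.Helper2.GCA.Lam` (the free graded-commutative algebra
`Lam deg`, generators `gen`, monomials `mon`, homogeneous components `hom`, minimal Sullivan algebras
`MinimalSullivan`), `Pool.Agent.Helper2.AN.Stmt2` (relative Sullivan algebras `IsExt`,
finite-dimensional cohomology `CohFin`), `Pool.Agent.Helper98.RD.Stat` (`GoodAt`, `EvenOnto`) and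
`Pool.Agent.Helper98.G2.Stat` (`PureMod`, `LocallyPureMod`).
-/

set_option autoImplicit false

open Anick2

/-- Let `(ΛW, d)` be a minimal Sullivan algebra with finitely many generators, all of degree `≥ 2`. Assume one of:
* for some `q ≤ p` all generators have degree `≥ q` and the even generators have degrees `2 p, …, 8 p + 6 q - 8` (for
  `p = q = 1`: the even generators have degree `2`, `4` or `6`);
* the generators have weights `w i ≥ 1`, `w i ≤ 6` for the even ones, such that `d (gen i)` is a combination of words of
  weight at most `w i`;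
* there is a morphism `(ΛX, d) → (ΛW, d)` from a minimal Sullivan algebra with finitely many generators of degree `≥ 2`
  whose linear part is surjective in even degrees (for example the identity), where every even generator `t` of `ΛX`
  lies in a set `A` of generators, or has `d t` in the ideal generated by such a set `A`, for which `ΛA` is a
  sub-differential algebra and has a sub-differential algebra `ΛO`, `O ⊆ A` a set of odd generators, with `ΛA/(O)` a
  pure algebra (`A` and `O` may depend on `t`).
Then for every `n` there is an elliptic relative Sullivan algebra `(ΛW ⊗ ΛV, d)`, minimal as a Sullivan algebra, with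
`V = V^{≥ n}`. -/
theorem Pool.Agent.Results.MP_5f0082_gt.PureModElliptic.result :
    ∀ (ι : Type) [Finite ι] (deg : ι → ℕ) (S : MinimalSullivan deg),
      ((∃ p q : ℕ, q ≤ p ∧ ∀ i, q ≤ deg i ∧
          (Even (deg i) → 2 * p ≤ deg i ∧ deg i + 8 ≤ 8 * p + 6 * q)) ∨
        (∃ w : ι → ℕ, (∀ i, 1 ≤ w i) ∧ (∀ i, Even (deg i) → w i ≤ 6) ∧
          ∀ i, S.d (gen deg i) ∈ Submodule.span ℚ {x | ∃ l : List ι, (l.map w).sum ≤ w i ∧
            x = mon deg l}) ∨
        ∃ (κ : Type) (_ : Finite κ) (deg' : κ → ℕ) (T : MinimalSullivan deg')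
          (J : Lam deg' →ₐ[ℚ] Lam deg), EvenOnto S T J ∧ T.LocallyPureMod) →
      ∀ n, S.GoodAt n := by
  rintro ι hι deg S h n
  have hid : EvenOnto S S (AlgHom.id ℚ (Lam deg)) :=
    ⟨fun _ _ ha => ha, fun _ => rfl, fun i _ => ⟨gen deg i, gen_mem_hom deg i, by
      have h0 : AlgHom.id ℚ (Lam deg) (gen deg i) - gen deg i = 0 := sub_self _
      rw [h0]
      exact zero_mem _⟩⟩
  rcases h with ⟨p, q, hqp, h⟩ | ⟨w, hw, h6, hd⟩ | ⟨κ, hκ, deg', T, J, hJ, hT⟩
  · exact AnWL.main_pureMod ι ι deg deg S S _ hid (AnWL.locallyPureMod_of_deg S p q hqp h) n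
  · exact AnWL.main_pureMod ι ι deg deg S S _ hid (AnWL.locallyPureMod_of_class S w hw hd h6) n
  · exact AnWL.main_pureMod ι κ deg deg' S T J hJ hT n
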